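import Pool.Agent.H798.BV.Stm3

set_option autoImplicit false

/-!
# (BDG), MP_f0bc87_an: Bregman domination of the remainder of `q2`
-/

open Polynomial MeasureTheory

namespace Pool.Agent.H388.BV

open Pool.Agent.H798.BV

theorem q2_nonneg (z : ℂ) : 0 ≤ q2 z := by
  unfold q2
  positivity

theorem re_sq_le (z : ℂ) : z.re ^ 2 ≤ ‖z‖ ^ 2 := by
  rw [← sq_abs z.re]
  exact pow_le_pow_left₀ (abs_nonneg _) (Complex.abs_re_le_norm z) 2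

theorem q2_le (z : ℂ) : q2 z ≤ 2 := by
  unfold q2
  rw [div_le_iff₀ (by positivity)]
  have := re_sq_le z
  linarith

theorem q2_mul (z : ℂ) : q2 z * (1 + ‖z‖ ^ 2) = 2 * z.re ^ 2 := by
  unfold q2
  have : (1 + ‖z‖ ^ 2) ≠ 0 := by positivity
  field_simp

/-- the gradient of `q2` -/
noncomputable def gam (w : ℂ) : ℂ :=
  ⟨(4 * w.re - 2 * q2 w * w.re) / (1 + ‖w‖ ^ 2), 2 * q2 w * w.im / (1 + ‖w‖ ^ 2)⟩

theorem gam_re (w v : ℂ) : (gam w * v).re =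
    (4 * (w.re * v.re) - 2 * q2 w * ((starRingEnd ℂ) w * v).re) / (1 + ‖w‖ ^ 2) := by
  rw [Complex.mul_re, Complex.mul_re, Complex.conj_re, Complex.conj_im]
  unfold gam
  simp only
  ring

theorem inner_le (w v : ℂ) : |((starRingEnd ℂ) w * v).re| ≤ ‖w‖ * ‖v‖ := by
  refine (Complex.abs_re_le_norm _).trans ?_
  rw [norm_mul, Complex.norm_conj]

theorem lin_le (w v : ℂ) :
    |4 * (w.re * v.re) - 2 * q2 w * ((starRingEnd ℂ) w * v).re| ≤ 8 * (‖w‖ * ‖v‖) := by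
  have h1 : |w.re * v.re| ≤ ‖w‖ * ‖v‖ := by
    rw [abs_mul]
    exact mul_le_mul (Complex.abs_re_le_norm w) (Complex.abs_re_le_norm v) (abs_nonneg _)
      (norm_nonneg _)
  have h2 := inner_le w v
  have h3 : |2 * q2 w * ((starRingEnd ℂ) w * v).re| ≤ 4 * (‖w‖ * ‖v‖) := by
    rw [abs_mul, abs_of_nonneg (mul_nonneg (by norm_num) (q2_nonneg w))]
    exact mul_le_mul (by linarith [q2_le w]) h2 (abs_nonneg _) (by norm_num)
  calc |4 * (w.re * v.re) - 2 * q2 w * ((starRingEnd ℂ) w * v).re| ≤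
        |4 * (w.re * v.re)| + |2 * q2 w * ((starRingEnd ℂ) w * v).re| := abs_sub _ _
    _ ≤ 8 * (‖w‖ * ‖v‖) := by
        rw [abs_mul, abs_of_pos (by norm_num : (0 : ℝ) < 4)]
        linarith

theorem norm_add_sq (w v : ℂ) :
    ‖w + v‖ ^ 2 = ‖w‖ ^ 2 + 2 * ((starRingEnd ℂ) w * v).re + ‖v‖ ^ 2 := by
  rw [Complex.sq_norm, Complex.sq_norm, Complex.sq_norm, Complex.normSq_apply,
    Complex.normSq_apply, Complex.normSq_apply, Complex.add_re, Complex.add_im, Complex.mul_re,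
    Complex.conj_re, Complex.conj_im]
  ring

theorem rem_eq (w v : ℂ) : q2 (w + v) - q2 w - (gam w * v).re =
    (2 * v.re ^ 2 - q2 w * ‖v‖ ^ 2) / (1 + ‖w + v‖ ^ 2) -
      (4 * (w.re * v.re) - 2 * q2 w * ((starRingEnd ℂ) w * v).re) *
        (2 * ((starRingEnd ℂ) w * v).re + ‖v‖ ^ 2) / ((1 + ‖w‖ ^ 2) * (1 + ‖w + v‖ ^ 2)) := by
  have hq := q2_mul w
  rw [gam_re]
  have h1 : q2 (w + v) = 2 * (w.re + v.re) ^ 2 / (1 + ‖w + v‖ ^ 2) := rfl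
  rw [h1, norm_add_sq]
  obtain ⟨c, hc⟩ : ∃ c, c = ((starRingEnd ℂ) w * v).re := ⟨_, rfl⟩
  have hN1 : 1 + (‖w‖ ^ 2 + 2 * c + ‖v‖ ^ 2) ≠ 0 := by
    rw [hc, ← norm_add_sq]
    positivity
  rw [← hc]
  obtain ⟨N0, hN0⟩ : ∃ N, N = 1 + ‖w‖ ^ 2 := ⟨_, rfl⟩
  have hN0' : N0 ≠ 0 := by
    rw [hN0]
    positivity
  have e1 : 1 + (‖w‖ ^ 2 + 2 * c + ‖v‖ ^ 2) = N0 + (2 * c + ‖v‖ ^ 2) := by
    rw [hN0]
    ring
  rw [e1] at hN1 ⊢
  rw [← hN0] at hq ⊢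
  field_simp
  linear_combination (-N0) * hq

theorem rem_small (w v : ℂ) (hv : ‖v‖ ≤ 1) :
    |q2 (w + v) - q2 w - (gam w * v).re| ≤ 26 * ‖v‖ ^ 2 := by
  have hv0 := norm_nonneg v
  have hw0 := norm_nonneg w
  rw [rem_eq]
  refine (abs_sub _ _).trans ?_
  have h1 : |(2 * v.re ^ 2 - q2 w * ‖v‖ ^ 2) / (1 + ‖w + v‖ ^ 2)| ≤ 2 * ‖v‖ ^ 2 := by
    rw [abs_div, abs_of_pos (by positivity : 0 < 1 + ‖w + v‖ ^ 2), div_le_iff₀ (by positivity)]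
    have h2 : |2 * v.re ^ 2 - q2 w * ‖v‖ ^ 2| ≤ 2 * ‖v‖ ^ 2 := by
      have h3 := re_sq_le v
      have h4 : 0 ≤ q2 w * ‖v‖ ^ 2 := mul_nonneg (q2_nonneg w) (by positivity)
      have h5 : q2 w * ‖v‖ ^ 2 ≤ 2 * ‖v‖ ^ 2 :=
        mul_le_mul_of_nonneg_right (q2_le w) (by positivity)
      have h6 := sq_nonneg v.re
      rw [abs_le]
      constructor <;> linarith
    refine h2.trans ?_
    have h3 : 0 ≤ 2 * ‖v‖ ^ 2 * ‖w + v‖ ^ 2 := by positivity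
    linarith
  have h2 : |(4 * (w.re * v.re) - 2 * q2 w * ((starRingEnd ℂ) w * v).re) *
        (2 * ((starRingEnd ℂ) w * v).re + ‖v‖ ^ 2) / ((1 + ‖w‖ ^ 2) * (1 + ‖w + v‖ ^ 2))| ≤
      24 * ‖v‖ ^ 2 := by
    rw [abs_div, abs_of_pos (by positivity : 0 < (1 + ‖w‖ ^ 2) * (1 + ‖w + v‖ ^ 2)),
      div_le_iff₀ (by positivity), abs_mul]
    have h3 := lin_le w v
    have h4 : |2 * ((starRingEnd ℂ) w * v).re + ‖v‖ ^ 2| ≤ 2 * (‖w‖ * ‖v‖) + ‖v‖ ^ 2 := by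
      refine (abs_add_le _ _).trans ?_
      rw [abs_mul, abs_of_pos (by norm_num : (0 : ℝ) < 2), abs_of_nonneg (by positivity :
        0 ≤ ‖v‖ ^ 2)]
      linarith [inner_le w v]
    have h5 : |4 * (w.re * v.re) - 2 * q2 w * ((starRingEnd ℂ) w * v).re| *
        |2 * ((starRingEnd ℂ) w * v).re + ‖v‖ ^ 2| ≤
        8 * (‖w‖ * ‖v‖) * (2 * (‖w‖ * ‖v‖) + ‖v‖ ^ 2) :=
      mul_le_mul h3 h4 (abs_nonneg _) (by positivity)
    refine h5.trans ?_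
    have h6 : 8 * (‖w‖ * ‖v‖) * (2 * (‖w‖ * ‖v‖) + ‖v‖ ^ 2) ≤ 24 * ‖v‖ ^ 2 * (1 + ‖w‖ ^ 2) := by
      have h7 : ‖w‖ * ‖v‖ ≤ (1 + ‖w‖ ^ 2) := by
        have h8 : ‖w‖ * ‖v‖ ≤ ‖w‖ := mul_le_of_le_one_right hw0 hv
        nlinarith [sq_nonneg (‖w‖ - 1)]
      have h8 : 8 * (‖w‖ * ‖v‖) * (2 * (‖w‖ * ‖v‖) + ‖v‖ ^ 2) =
          ‖v‖ ^ 2 * (16 * ‖w‖ ^ 2 + 8 * (‖w‖ * ‖v‖)) := by ring
      rw [h8]
      have h9 : 16 * ‖w‖ ^ 2 + 8 * (‖w‖ * ‖v‖) ≤ 24 * (1 + ‖w‖ ^ 2) := by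
        nlinarith [sq_nonneg ‖w‖]
      calc ‖v‖ ^ 2 * (16 * ‖w‖ ^ 2 + 8 * (‖w‖ * ‖v‖)) ≤ ‖v‖ ^ 2 * (24 * (1 + ‖w‖ ^ 2)) :=
            mul_le_mul_of_nonneg_left h9 (by positivity)
        _ = _ := by ring
    refine h6.trans ?_
    have h7 : 0 ≤ 24 * ‖v‖ ^ 2 * (1 + ‖w‖ ^ 2) * ‖w + v‖ ^ 2 := by positivity
    linarith
  linarith

theorem rem_large (w v : ℂ) (hv : 1 ≤ ‖v‖) :
    |q2 (w + v) - q2 w - (gam w * v).re| ≤ 26 * ‖v‖ := by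
  have hv0 := norm_nonneg v
  have hw0 := norm_nonneg w
  have h1 : |(gam w * v).re| ≤ 8 * ‖v‖ := by
    rw [gam_re, abs_div, abs_of_pos (by positivity : 0 < 1 + ‖w‖ ^ 2), div_le_iff₀ (by positivity)]
    refine (lin_le w v).trans ?_
    have h2 : ‖w‖ ≤ 1 + ‖w‖ ^ 2 := by nlinarith [sq_nonneg (‖w‖ - 1)]
    have h3 : ‖v‖ * ‖w‖ ≤ ‖v‖ * (1 + ‖w‖ ^ 2) := mul_le_mul_of_nonneg_left h2 hv0
    linarith
  have h2 := q2_nonneg (w + v)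
  have h3 := q2_le (w + v)
  have h4 := q2_nonneg w
  have h5 := q2_le w
  rw [abs_le] at h1 ⊢
  constructor <;> linarith [h1.1, h1.2]

theorem t_BDG (h : S_BRL) : S_BDG := by
  intro p hp
  obtain ⟨c, hc, hB⟩ := h p hp
  obtain ⟨k, hk⟩ : ∃ k, k = min ((1 / 2 : ℝ) ^ (p - 2)) (min ((3 : ℝ) ^ (p - 2)) 1) := ⟨_, rfl⟩
  have hk0 : 0 < k := by
    rw [hk]
    exact lt_min (by positivity) (lt_min (by positivity) one_pos)
  have hk1 : k ≤ (1 / 2 : ℝ) ^ (p - 2) := by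
    rw [hk]
    exact min_le_left _ _
  have hk2 : k ≤ (3 : ℝ) ^ (p - 2) := by
    rw [hk]
    exact (min_le_right _ _).trans (min_le_left _ _)
  have hk3 : k ≤ 1 := by
    rw [hk]
    exact (min_le_right _ _).trans (min_le_right _ _)
  refine ⟨26 / (c * k), by positivity, fun a _ _ w hw1 hw2 => ⟨gam w, fun z => ?_⟩⟩
  obtain ⟨v, hv⟩ : ∃ v, v = z - w := ⟨_, rfl⟩
  have hz : z = w + v := by rw [hv]; ring
  have hB' := hB (w - a) v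
  have e1 : (w - a) + v = z - a := by rw [hv]; ring
  rw [e1] at hB'
  rw [← hv]
  refine le_trans ?_ (mul_le_mul_of_nonneg_left hB' (by positivity))
  have e2 : 26 / (c * k) * (c * (‖v‖ ^ 2 * (‖w - a‖ + ‖v‖) ^ (p - 2))) =
      26 * (‖v‖ ^ 2 * ((‖w - a‖ + ‖v‖) ^ (p - 2) / k)) := by
    field_simp
  rw [e2, hz]
  have hv0 := norm_nonneg v
  rcases le_total ‖v‖ 1 with hv1 | hv1
  · refine (rem_small w v hv1).trans ?_
    have h1 : 1 ≤ (‖w - a‖ + ‖v‖) ^ (p - 2) / k := by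
      rw [one_le_div hk0]
      rcases le_total 2 p with hp2 | hp2
      · exact hk1.trans (Real.rpow_le_rpow (by norm_num) (by linarith) (by linarith))
      · exact hk2.trans (Real.rpow_le_rpow_of_nonpos (by linarith) (by linarith) (by linarith))
    have h2 : ‖v‖ ^ 2 * 1 ≤ ‖v‖ ^ 2 * ((‖w - a‖ + ‖v‖) ^ (p - 2) / k) :=
      mul_le_mul_of_nonneg_left h1 (by positivity)
    linarith
  · refine (rem_large w v hv1).trans ?_
    have hvp : 0 < ‖v‖ := by linarith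
    have h1 : ‖v‖ ≤ ‖v‖ ^ 2 * ((‖w - a‖ + ‖v‖) ^ (p - 2) / k) := by
      rcases le_total 2 p with hp2 | hp2
      · have h2 : 1 ≤ (‖w - a‖ + ‖v‖) ^ (p - 2) / k := by
          rw [one_le_div hk0]
          exact hk3.trans (Real.one_le_rpow (by linarith) (by linarith))
        have h3 : ‖v‖ ^ 2 * 1 ≤ ‖v‖ ^ 2 * ((‖w - a‖ + ‖v‖) ^ (p - 2) / k) :=
          mul_le_mul_of_nonneg_left h2 (by positivity)
        nlinarith
      · have h2 : (3 * ‖v‖) ^ (p - 2) ≤ (‖w - a‖ + ‖v‖) ^ (p - 2) :=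
          Real.rpow_le_rpow_of_nonpos (by linarith) (by linarith) (by linarith)
        rw [Real.mul_rpow (by norm_num) hv0] at h2
        have h3 : ‖v‖ ^ (p - 2) ≤ (‖w - a‖ + ‖v‖) ^ (p - 2) / k := by
          rw [le_div_iff₀ hk0]
          refine le_trans ?_ h2
          rw [mul_comm]
          exact mul_le_mul_of_nonneg_right hk2 (by positivity)
        have h4 : ‖v‖ ^ 2 * ‖v‖ ^ (p - 2) = ‖v‖ ^ p := by
          rw [← Real.rpow_natCast ‖v‖ 2, ← Real.rpow_add hvp]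
          congr 1
          push_cast
          ring
        have h5 : ‖v‖ ≤ ‖v‖ ^ p := by
          calc ‖v‖ = ‖v‖ ^ (1 : ℝ) := (Real.rpow_one _).symm
            _ ≤ ‖v‖ ^ p := Real.rpow_le_rpow_of_exponent_le hv1 hp.le
        calc ‖v‖ ≤ ‖v‖ ^ 2 * ‖v‖ ^ (p - 2) := by rw [h4]; exact h5
          _ ≤ _ := mul_le_mul_of_nonneg_left h3 (by positivity)
    linarith

end Pool.Agent.H388.BV
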